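import Pool.Agent.N644.EL.FargA
import Pool.Agent.N912.EL.Stm2

/-!
# EL/14: from the condition on the Gaussian primes to `FarK` (helper644 for helper912, project EL)
-/

set_option autoImplicit false

namespace Pool.Agent.N644.EL

open Pool.Agent.W78.GA
open Pool.Agent.W78.EG

theorem gch {M : ℕ} {φ : Qd 0 1 → ℂ} (H : HCh M φ) :
    Pool.Agent.N912.EL.GCh M (fun z => (starRingEnd ℂ) (φ (gt z))) where
  per := fun z w h => by
    rw [per_gt H h]
  mul := fun z w => by
    have h1 : gt (z * w) = gt z * gt w := gtH.map_mul z w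
    rw [h1, H.mul, map_mul]
  one := by
    have h1 : gt 1 = 1 := gtH.map_one
    rw [h1, H.one, map_one]
  unit := fun u hu => by
    rw [H.unit _ (unit_gt hu), map_one]
  ne := fun z => by
    rw [ne_eq, map_eq_zero, ← ne_eq, H.ne, coprime_gt]

theorem farg : Pool.Agent.N912.EL.S_FARG := by
  intro N F hN _ _ hFN hfar M φ hM H hφN hs
  refine hfar M (fun z => (starRingEnd ℂ) (φ (gt z))) hM (gch H) ?_
  refine core hN hFN hM H hφN _ ?_ ?_ hs
  · intro z hz hne
    exact if_pos ⟨hz, hne⟩
  · intro z hz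
    exact if_neg hz

end Pool.Agent.N644.EL
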