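import Pool.Agent.W584.EG.Lmx
import Pool.Agent.N912.HL.H3

/-!
# EL/14: from the condition on the Gaussian primes to `FarK`, the proof
(helper644 for helper912, project EL; some short lemmas are copied from `Pool.Agent.N912.HL.H5`,
`H7`)
-/

set_option autoImplicit false

namespace Pool.Agent.N644.EL

open Finset Filter
open Pool.Agent.W78.GA
open Pool.Agent.W78.EG
open Pool.Agent.W584.EG (rr aL_le uc_pos phi_le)
open Pool.Agent.N912.HL (gg gg_nonneg)

theorem hD01 : (0 : ℤ) ^ 2 < 4 * 1 := by norm_num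

/-! ### copied lemmas -/

section copied

variable {t c : ℤ}

theorem phi_one {M : ℕ} {φ : Qd t c → ℂ} (hM : 1 ≤ M) (H : HCh M φ) {z : Qd t c}
    (hz : IsCoprime z (M : Qd t c)) : ‖φ z‖ = 1 := by
  obtain ⟨a, b, hab⟩ := hz
  have h1 : φ (a * z) = 1 := by
    rw [← H.one]
    refine H.per _ _ ?_ ?_
    · have h2 : a * z - 1 = (M : Qd t c) * (-b) := by
        rw [← hab]; ring
      have h3 : (M : Qd t c) ∣ a * z - 1 := ⟨_, h2⟩
      rw [natCast_dvd] at h3
      exact h3.1
    · have h2 : a * z - 1 = (M : Qd t c) * (-b) := by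
        rw [← hab]; ring
      have h3 : (M : Qd t c) ∣ a * z - 1 := ⟨_, h2⟩
      rw [natCast_dvd] at h3
      exact h3.2
  rw [H.mul] at h1
  have h2 := congrArg norm h1
  rw [norm_mul, norm_one] at h2
  have h3 := phi_le hM H a
  have h4 := phi_le hM H z
  refine le_antisymm h4 ?_
  by_contra h5
  push Not at h5
  have h6 : ‖φ a‖ * ‖φ z‖ < 1 := by
    calc ‖φ a‖ * ‖φ z‖ ≤ 1 * ‖φ z‖ := mul_le_mul_of_nonneg_right h3 (norm_nonneg _)
      _ < 1 := by rw [one_mul]; exact h5
  linarith

theorem cop_of_prime (hD : t ^ 2 < 4 * c) {M p : ℕ} (hp : p.Prime) (hpM : ¬ p ∣ M) {z : Qd t c}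
    (hz : nm z = p) : IsCoprime z (M : Qd t c) := by
  have h1 : IsCoprime (p : ℤ) (M : ℤ) :=
    Nat.isCoprime_iff_coprime.2 ((Nat.Prime.coprime_iff_not_dvd hp).2 hpM)
  obtain ⟨a, b, hab⟩ := h1
  refine ⟨(a : Qd t c) * star z, (b : Qd t c), ?_⟩
  rw [mul_assoc, star_mul_self' hD, hz]
  have h2 : ((a * p + b * M : ℤ) : Qd t c) = 1 := by rw [hab]; simp
  push_cast at h2
  exact h2

theorem norm_sub_sq {u : ℂ} (hu : ‖u‖ = 1) : ‖1 - u‖ ^ 2 = 2 * (1 - u.re) := by
  rw [← Complex.normSq_eq_norm_sq, Complex.normSq_apply]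
  have h1 : u.re * u.re + u.im * u.im = 1 := by
    have := Complex.normSq_eq_norm_sq u
    rw [Complex.normSq_apply, hu] at this
    linarith
  simp only [Complex.sub_re, Complex.one_re, Complex.sub_im, Complex.one_im]
  nlinarith

theorem pow_dist1 {u : ℂ} (hu : ‖u‖ = 1) (N : ℕ) : ‖1 - u ^ N‖ ≤ N * ‖1 - u‖ := by
  induction N with
  | zero => simp
  | succ N ih =>
    have h2 : 1 - u ^ (N + 1) = (1 - u ^ N) + u ^ N * (1 - u) := by ring
    rw [h2]
    refine (norm_add_le _ _).trans ?_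
    rw [norm_mul, norm_pow, hu, one_pow, one_mul]
    push_cast
    linarith

/-- roots of unity different from `1` are not close to `1` -/
theorem root_far {u : ℂ} {N : ℕ} (hN : 1 ≤ N) (h : u ^ N = 1) (h1 : u ≠ 1) :
    1 / (2 * (N : ℝ) ^ 2) ≤ 1 - u.re := by
  have hu : ‖u‖ = 1 := Complex.norm_eq_one_of_pow_eq_one h (by omega)
  have hN0 : (0 : ℝ) < N := by exact_mod_cast hN
  have hsum : ∑ i ∈ range N, u ^ i = 0 := by
    have h2 := geom_sum_mul u N
    rw [h, sub_self] at h2
    rcases mul_eq_zero.1 h2 with h3 | h3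
    · exact h3
    · exact absurd (sub_eq_zero.1 h3) h1
  have h2 : (N : ℂ) = ∑ i ∈ range N, (1 - u ^ i) := by
    rw [sum_sub_distrib, hsum, sum_const, card_range, nsmul_eq_mul, mul_one, sub_zero]
  have h3 : (N : ℝ) ≤ ∑ i ∈ range N, (N : ℝ) * ‖1 - u‖ := by
    have h4 : (N : ℝ) = ‖(N : ℂ)‖ := by rw [Complex.norm_natCast]
    rw [h4, h2]
    refine (norm_sum_le _ _).trans (sum_le_sum fun i hi => ?_)
    refine (pow_dist1 hu i).trans (mul_le_mul_of_nonneg_right ?_ (norm_nonneg _))
    have h5 : i ≤ N := (mem_range.1 hi).le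
    have h6 : (i : ℝ) ≤ N := by exact_mod_cast h5
    rw [← h2, ← h4]
    exact h6
  rw [sum_const, card_range, nsmul_eq_mul] at h3
  have h4 : 1 / (N : ℝ) ≤ ‖1 - u‖ := by
    rw [div_le_iff₀ hN0]
    have h5 : (N : ℝ) * 1 ≤ N * (‖1 - u‖ * N) := by
      calc (N : ℝ) * 1 = N := mul_one _
        _ ≤ N * (N * ‖1 - u‖) := h3
        _ = _ := by ring
    exact le_of_mul_le_mul_left h5 hN0
  have h5 := pow_le_pow_left₀ (by positivity) h4 2
  rw [norm_sub_sq hu] at h5
  have h6 : (1 / (N : ℝ)) ^ 2 = 2 * (1 / (2 * (N : ℝ) ^ 2)) := by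
    field_simp
  rw [h6] at h5
  linarith

end copied

/-! ### Gaussian integers and `Qd 0 1` -/

/-- the Gaussian integer of an element of `Qd 0 1` -/
def tg' (z : Qd 0 1) : GaussianInt := ⟨z.re, z.im⟩

/-- the element of `Qd 0 1` of a Gaussian integer -/
def gt (z : GaussianInt) : Qd 0 1 := ⟨z.re, z.im⟩

/-- `gt` is a ring homomorphism -/
def gtH : GaussianInt →+* Qd 0 1 where
  toFun := gt
  map_one' := by
    apply QuadraticAlgebra.ext
    · rfl
    · rfl
  map_mul' x y := by
    apply QuadraticAlgebra.ext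
    · simp only [gt, Zsqrtd.re_mul, QuadraticAlgebra.re_mul]
    · simp only [gt, Zsqrtd.im_mul, QuadraticAlgebra.im_mul]
      ring
  map_zero' := by
    apply QuadraticAlgebra.ext
    · simp [gt]
    · simp [gt]
  map_add' x y := by
    apply QuadraticAlgebra.ext
    · simp [gt]
    · simp [gt]

/-- `tg'` is a ring homomorphism -/
def tgH : Qd 0 1 →+* GaussianInt where
  toFun := tg'
  map_one' := by
    apply Zsqrtd.ext
    · rfl
    · rfl
  map_mul' x y := by
    apply Zsqrtd.ext
    · simp only [tg', Zsqrtd.re_mul, QuadraticAlgebra.re_mul]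
    · simp only [tg', Zsqrtd.im_mul, QuadraticAlgebra.im_mul]
      ring
  map_zero' := by
    apply Zsqrtd.ext
    · simp [tg']
    · simp [tg']
  map_add' x y := by
    apply Zsqrtd.ext
    · simp [tg']
    · simp [tg']

theorem gt_inj : Function.Injective gt := by
  intro x y h
  have h1 := congrArg QuadraticAlgebra.re h
  have h2 := congrArg QuadraticAlgebra.im h
  exact Zsqrtd.ext h1 h2

theorem tg_gt (z : GaussianInt) : tg' (gt z) = z := rfl

theorem gt_tg (z : Qd 0 1) : gt (tg' z) = z := rfl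

theorem nm_gt (z : GaussianInt) : nm (gt z) = z.norm.natAbs := by
  unfold nm gt Zsqrtd.norm
  congr 1
  ring

theorem norm_real (z : GaussianInt) : (z.norm : ℝ) = (z.norm.natAbs : ℝ) := by
  have h := GaussianInt.natCast_natAbs_norm (α := ℝ) z
  exact h.symm

theorem coprime_gt (z : GaussianInt) (M : ℕ) :
    IsCoprime (gt z) (M : Qd 0 1) ↔ IsCoprime z (M : GaussianInt) := by
  constructor
  · intro h
    have h1 := h.map tgH
    rw [map_natCast] at h1
    exact h1
  · intro h
    have h1 := h.map gtH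
    rw [map_natCast] at h1
    exact h1

theorem per_gt {M : ℕ} {φ : Qd 0 1 → ℂ} (H : HCh M φ) {z w : GaussianInt}
    (h : (M : GaussianInt) ∣ z - w) : φ (gt z) = φ (gt w) := by
  have h1 : ((M : ℕ) : Qd 0 1) ∣ gtH (z - w) := by
    have := map_dvd gtH h
    rwa [map_natCast] at this
  rw [natCast_dvd] at h1
  exact H.per _ _ h1.1 h1.2

theorem unit_gt {u : GaussianInt} (hu : IsUnit u) : nm (gt u) = 1 := by
  rw [nm_gt]
  exact Zsqrtd.norm_eq_one_iff.2 hu

/-! ### Gaussian primes -/

theorem prime_over {z : GaussianInt} (hz : Prime z) :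
    ∃ p : ℕ, p.Prime ∧ z ∣ (p : GaussianInt) ∧ (z.norm.natAbs = p ∨ z.norm.natAbs = p ^ 2) := by
  obtain ⟨n, hn⟩ : ∃ n : ℕ, n = z.norm.natAbs := ⟨_, rfl⟩
  have hdiv : z ∣ (n : GaussianInt) := by
    have h1 : ((n : ℤ) : GaussianInt) = z * star z := by
      rw [← Zsqrtd.norm_eq_mul_conj, hn]
      congr 1
      exact GaussianInt.abs_natCast_norm z
    refine ⟨star z, ?_⟩
    rw [← h1]
    simp
  have hn0 : n ≠ 0 := by
    intro h0
    rw [h0] at hn
    have h2 : z.norm = 0 := Int.natAbs_eq_zero.1 hn.symm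
    exact hz.ne_zero ((GaussianInt.norm_eq_zero).1 h2)
  have h2 : (n : GaussianInt) = (n.primeFactorsList.map (Nat.cast : ℕ → GaussianInt)).prod := by
    conv_lhs => rw [← Nat.prod_primeFactorsList hn0]
    rw [Nat.cast_list_prod]
  rw [h2, hz.dvd_prod_iff] at hdiv
  obtain ⟨a, ha, hza⟩ := hdiv
  obtain ⟨p, hp, rfl⟩ := List.mem_map.1 ha
  have hpp := Nat.prime_of_mem_primeFactorsList hp
  refine ⟨p, hpp, hza, ?_⟩
  obtain ⟨w, hw⟩ := hza
  have h3 : z.norm.natAbs ∣ p ^ 2 := by
    have h4 : (p : GaussianInt).norm.natAbs = (z * w).norm.natAbs := by rw [← hw]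
    rw [Zsqrtd.norm_mul, Int.natAbs_mul, Zsqrtd.norm_natCast] at h4
    refine ⟨w.norm.natAbs, ?_⟩
    rw [← h4, Int.natAbs_mul, Int.natAbs_natCast]
    ring
  obtain ⟨k, hk, hk2⟩ := (Nat.dvd_prime_pow hpp).1 h3
  have hk0 : k ≠ 0 := by
    intro h0
    rw [h0, pow_zero] at hk2
    exact hz.not_isUnit (Zsqrtd.norm_eq_one_iff.1 hk2)
  have hk3 : k = 1 ∨ k = 2 := by omega
  rcases hk3 with rfl | rfl
  · left; rw [hk2, pow_one]
  · right; exact hk2

/-- there are at most nine Gaussian primes of norm `p ^ 2` (over `p`) -/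
theorem card_inert {p : ℕ} (hp : p.Prime) (v : Finset GaussianInt)
    (hv : ∀ z ∈ v, z ∣ (p : GaussianInt) ∧ z.norm.natAbs = p ^ 2) : v.card ≤ 9 := by
  classical
  have h1 : ∀ z ∈ v, ∃ w : GaussianInt, (p : GaussianInt) = z * w ∧ w.norm.natAbs = 1 := by
    intro z hz
    obtain ⟨⟨w, hw⟩, hn⟩ := hv z hz
    refine ⟨w, hw, ?_⟩
    have h4 : (p : GaussianInt).norm.natAbs = (z * w).norm.natAbs := by rw [← hw]
    rw [Zsqrtd.norm_mul, Int.natAbs_mul, Zsqrtd.norm_natCast, hn, Int.natAbs_mul,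
      Int.natAbs_natCast] at h4
    have h5 : p ^ 2 * 1 = p ^ 2 * w.norm.natAbs := by rw [← h4]; ring
    exact (Nat.eq_of_mul_eq_mul_left (pow_pos hp.pos 2) h5).symm
  choose! w hw1 hw2 using h1
  have h2 : v.card ≤ ((Icc (-1 : ℤ) 1) ×ˢ (Icc (-1 : ℤ) 1)).card := by
    refine card_le_card_of_injOn (fun z => ((w z).re, (w z).im)) ?_ ?_
    · intro z hz
      have h3 := hw2 z hz
      have h4 : (w z).norm = 1 := by
        have := GaussianInt.abs_natCast_norm (w z)
        rw [h3] at this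
        exact this.symm
      unfold Zsqrtd.norm at h4
      have h5 : -1 ≤ (w z).re ∧ (w z).re ≤ 1 := by
        constructor <;> nlinarith [mul_self_nonneg (w z).im]
      have h6 : -1 ≤ (w z).im ∧ (w z).im ≤ 1 := by
        constructor <;> nlinarith [mul_self_nonneg (w z).re]
      have h7 : ((w z).re, (w z).im) ∈ ((Icc (-1 : ℤ) 1) ×ˢ (Icc (-1 : ℤ) 1)) := by
        rw [mem_product, mem_Icc, mem_Icc]
        exact ⟨h5, h6⟩
      exact_mod_cast h7
    · intro z hz z' hz' h
      have h3 : w z = w z' := Zsqrtd.ext (Prod.ext_iff.1 h).1 (Prod.ext_iff.1 h).2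
      have h4 : z * w z = z' * w z := by
        rw [← hw1 z hz, h3, ← hw1 z' hz']
      have h5 : w z ≠ 0 := by
        intro h0
        have h6 := hw2 z hz
        rw [h0] at h6
        simp at h6
      exact mul_right_cancel₀ h5 h4
  refine h2.trans ?_
  decide

/-! ### The deficit -/

/-- the elements of norm `n` -/
noncomputable def TT (n : ℕ) : Finset (Qd 0 1) := (ball 0 1 (n : ℝ)).filter (fun z => nm z = n)

theorem mem_TT {n : ℕ} (hn : 1 ≤ n) {z : Qd 0 1} : z ∈ TT n ↔ nm z = n := by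
  unfold TT
  rw [mem_filter, mem_ball hD01]
  constructor
  · exact fun h => h.2
  · intro h
    rw [h]
    exact ⟨⟨hn, le_rfl⟩, rfl⟩

theorem deficit {G : Qd 0 1 → ℂ} {p : ℕ} (hp : p.Prime) :
    (uc 0 1 : ℝ) * gg (rr 0 1) (aL G) 0 0 p = (∑ z ∈ TT p, (1 - (G z).re)) * (1 / p) := by
  have hu : (uc 0 1 : ℝ) ≠ 0 := by exact_mod_cast (uc_pos hD01).ne'
  have hp0 : (0 : ℝ) < p := by exact_mod_cast hp.pos
  unfold gg
  rw [if_pos hp, add_zero, Real.rpow_neg hp0.le, Real.rpow_one]
  have h1 : aL G p * (p : ℂ) ^ (-(((0 : ℝ) : ℂ) * Complex.I)) =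
      (∑ z ∈ TT p, G z) / ((uc 0 1 : ℝ) : ℂ) := by
    rw [Complex.ofReal_zero, zero_mul, neg_zero, Complex.cpow_zero, mul_one]
    unfold aL TT
    push_cast
    rfl
  rw [h1, Complex.div_ofReal_re, Complex.re_sum, sum_sub_distrib, sum_const, nsmul_eq_mul, mul_one]
  have h2 : rr 0 1 p = ((TT p).card : ℝ) / (uc 0 1 : ℝ) := rfl
  rw [h2]
  field_simp

/-! ### The comparison -/

theorem core {N : ℕ} (hN : 1 ≤ N) {F : GaussianInt → ℂ} (hFN : ∀ z, F z ^ N = 1) {M : ℕ}
    (hM : 1 ≤ M) {φ : Qd 0 1 → ℂ} (H : HCh M φ) (hφN : ∀ z, φ z ≠ 0 → φ z ^ N = 1)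
    (f : GaussianInt → ℝ)
    (hf1 : ∀ z, Prime z → F z ≠ (starRingEnd ℂ) (φ (gt z)) → f z = 1 / (z.norm : ℝ))
    (hf2 : ∀ z, ¬ (Prime z ∧ F z ≠ (starRingEnd ℂ) (φ (gt z))) → f z = 0)
    (hs : Summable (gg (rr 0 1) (aL (fun z => F (tg' z) * φ z)) 0 0)) : Summable f := by
  classical
  have hu : (0 : ℝ) < uc 0 1 := by exact_mod_cast uc_pos hD01
  have hN0 : (0 : ℝ) < N := by exact_mod_cast hN
  have hF1 : ∀ z, ‖F z‖ = 1 := fun z => Complex.norm_eq_one_of_pow_eq_one (hFN z) (by omega)
  obtain ⟨G, hG⟩ : ∃ G : Qd 0 1 → ℂ, G = fun z => F (tg' z) * φ z := ⟨_, rfl⟩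
  rw [← hG] at hs
  have hG1 : ∀ z, ‖G z‖ ≤ 1 := fun z => by
    rw [hG]
    simp only
    rw [norm_mul, hF1, one_mul]
    exact phi_le hM H z
  have hGre : ∀ z, 0 ≤ 1 - (G z).re := fun z => by
    have := (Complex.re_le_norm (G z)).trans (hG1 z)
    linarith
  have hgg : ∀ n, 0 ≤ gg (rr 0 1) (aL G) 0 0 n := fun n => gg_nonneg (aL_le hD01 hG1) 0 0 n
  have hfle : ∀ z, Prime z → f z ≤ 1 / (z.norm.natAbs : ℝ) := by
    intro z hz
    by_cases h : F z ≠ (starRingEnd ℂ) (φ (gt z))
    · rw [hf1 z hz h, norm_real]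
    · rw [hf2 z fun h' => h h'.2]
      positivity
  have hf0 : ∀ z, 0 ≤ f z := by
    intro z
    by_cases h : Prime z ∧ F z ≠ (starRingEnd ℂ) (φ (gt z))
    · rw [hf1 z h.1 h.2, norm_real]
      positivity
    · rw [hf2 z h]
  -- the bound
  obtain ⟨b, hb⟩ : ∃ b : ℕ → ℝ, b = fun n => 2 * (N : ℝ) ^ 2 * (uc 0 1 *
      gg (rr 0 1) (aL G) 0 0 n) + (if n ∣ M then ((TT n).card : ℝ) else 0) +
      (if IsSquare n then 9 * (1 / (n : ℝ)) else 0) := ⟨_, rfl⟩
  have hb1 : ∀ n, 0 ≤ 2 * (N : ℝ) ^ 2 * (uc 0 1 * gg (rr 0 1) (aL G) 0 0 n) := fun n => by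
    have := hgg n
    positivity
  have hb2 : ∀ n, (0 : ℝ) ≤ (if n ∣ M then ((TT n).card : ℝ) else 0) := fun n => by
    split_ifs
    · positivity
    · exact le_rfl
  have hb3 : ∀ n : ℕ, (0 : ℝ) ≤ (if IsSquare n then 9 * (1 / (n : ℝ)) else 0) := fun n => by
    split_ifs
    · positivity
    · exact le_rfl
  have hb0 : ∀ n, 0 ≤ b n := fun n => by
    rw [hb]
    exact add_nonneg (add_nonneg (hb1 n) (hb2 n)) (hb3 n)
  have hbs : Summable b := by
    rw [hb]
    refine Summable.add (Summable.add ?_ ?_) ?_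
    · exact (hs.mul_left _).mul_left _
    · refine summable_of_hasFiniteSupport ((M.divisors.finite_toSet).subset ?_)
      intro n hn
      rw [Function.mem_support] at hn
      have : n ∣ M := by
        by_contra hc
        exact hn (if_neg hc)
      exact mem_coe.2 (Nat.mem_divisors.2 ⟨this, by omega⟩)
    · have hinj : Function.Injective (fun m : ℕ => m ^ 2) := fun a b h => by
        exact Nat.pow_left_injective (by norm_num) h
      rw [← hinj.summable_iff]
      · have h1 : Summable (fun m : ℕ => 9 * (1 / (m : ℝ) ^ 2)) :=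
          (Real.summable_one_div_nat_pow.2 (by norm_num)).mul_left 9
        refine h1.congr fun m => ?_
        simp only [Function.comp]
        rw [if_pos ⟨m, by ring⟩]
        push_cast
        rfl
      · intro n hn
        refine if_neg fun h => hn ?_
        obtain ⟨r, hr⟩ := h
        exact ⟨r, by rw [hr]; ring⟩
  -- the fibres
  have hfib : ∀ (n : ℕ) (v : Finset GaussianInt), (∀ z ∈ v, z.norm.natAbs = n) →
      ∑ z ∈ v, f z ≤ b n := by
    intro n v hv
    obtain ⟨v', hv'⟩ : ∃ v' : Finset GaussianInt, v' = v.filter (fun z => Prime z) := ⟨_, rfl⟩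
    have e1 : ∑ z ∈ v, f z = ∑ z ∈ v', f z := by
      rw [hv']
      refine (sum_subset (filter_subset _ _) fun z hz hz' => ?_).symm
      refine hf2 z fun h => hz' (mem_filter.2 ⟨hz, h.1⟩)
    rw [e1]
    rcases v'.eq_empty_or_nonempty with h0 | ⟨z₀, hz₀⟩
    · rw [h0, sum_empty]
      exact hb0 n
    have hvp : ∀ z ∈ v', Prime z ∧ z.norm.natAbs = n := fun z hz => by
      rw [hv', mem_filter] at hz
      exact ⟨hz.2, hv z hz.1⟩
    have hsum1 : ∑ z ∈ v', f z ≤ v'.card * (1 / (n : ℝ)) := by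
      have h1 : ∑ z ∈ v', f z ≤ ∑ z ∈ v', (1 / (n : ℝ)) := by
        refine sum_le_sum fun z hz => ?_
        have h2 := hfle z (hvp z hz).1
        rw [(hvp z hz).2] at h2
        exact h2
      rw [sum_const, nsmul_eq_mul] at h1
      exact h1
    have hn1 : 1 ≤ n := by
      have h1 := hvp z₀ hz₀
      rw [← h1.2]
      refine Nat.one_le_iff_ne_zero.2 fun h0 => ?_
      exact h1.1.ne_zero (GaussianInt.norm_eq_zero.1 (Int.natAbs_eq_zero.1 h0))
    have hn1R : (1 : ℝ) ≤ n := by exact_mod_cast hn1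
    by_cases hnp : n.Prime
    · by_cases hnM : n ∣ M
      · -- the primes dividing `M`
        have h2 : v'.card ≤ (TT n).card := by
          refine card_le_card_of_injOn gt ?_ (fun x _ y _ h => gt_inj h)
          intro z hz
          exact mem_coe.2 ((mem_TT hn1).2 ((nm_gt z).trans (hvp z hz).2))
        have h2' : (v'.card : ℝ) ≤ (TT n).card := by exact_mod_cast h2
        have h3 : (v'.card : ℝ) * (1 / (n : ℝ)) ≤ (TT n).card * 1 := by
          refine mul_le_mul h2' ?_ (by positivity) (by positivity)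
          rw [div_le_one (by linarith)]
          exact hn1R
        have h4 : b n = 2 * (N : ℝ) ^ 2 * (uc 0 1 * gg (rr 0 1) (aL G) 0 0 n) +
            ((TT n).card : ℝ) + (if IsSquare n then 9 * (1 / (n : ℝ)) else 0) := by
          rw [hb]
          simp only
          rw [if_pos hnM]
        rw [h4]
        have h5 := hb1 n
        have h6 := hb3 n
        linarith
      · -- the main case
        have h2 : ∑ z ∈ v', f z ≤ ∑ w ∈ TT n, 2 * (N : ℝ) ^ 2 * ((1 - (G w).re) * (1 / n)) := by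
          have h3 : ∑ z ∈ v', f z ≤ ∑ z ∈ v', 2 * (N : ℝ) ^ 2 * ((1 - (G (gt z)).re) * (1 / n)) := by
            refine sum_le_sum fun z hz => ?_
            obtain ⟨g1, g2⟩ := hvp z hz
            by_cases hne : F z ≠ (starRingEnd ℂ) (φ (gt z))
            · rw [hf1 z g1 hne, norm_real, g2]
              have hc := cop_of_prime hD01 hnp hnM ((nm_gt z).trans g2)
              have hφ0 := (H.ne _).2 hc
              have hφ1 := phi_one hM H hc
              have h4 : 1 / (2 * (N : ℝ) ^ 2) ≤ 1 - (G (gt z)).re := by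
                refine root_far hN ?_ ?_
                · rw [hG]
                  simp only
                  rw [mul_pow, hFN, hφN _ hφ0, one_mul]
                · rw [hG]
                  simp only
                  rw [tg_gt]
                  intro h6
                  apply hne
                  have h7 : (starRingEnd ℂ) (φ (gt z)) * φ (gt z) = 1 := by
                    rw [mul_comm, Complex.mul_conj, Complex.normSq_eq_norm_sq, hφ1]
                    simp
                  exact mul_right_cancel₀ hφ0 (h6.trans h7.symm)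
              have h5 : 1 ≤ 2 * (N : ℝ) ^ 2 * (1 - (G (gt z)).re) := by
                have h11 := mul_le_mul_of_nonneg_left h4 (show (0 : ℝ) ≤ 2 * (N : ℝ) ^ 2 by positivity)
                have h12 : 2 * (N : ℝ) ^ 2 * (1 / (2 * (N : ℝ) ^ 2)) = 1 := by field_simp
                rw [h12] at h11
                exact h11
              calc 1 / (n : ℝ) = 1 * (1 / n) := (one_mul _).symm
                _ ≤ (2 * (N : ℝ) ^ 2 * (1 - (G (gt z)).re)) * (1 / n) :=
                    mul_le_mul_of_nonneg_right h5 (by positivity)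
                _ = _ := by ring
            · rw [hf2 z fun h => hne h.2]
              have := hGre (gt z)
              positivity
          refine h3.trans ?_
          have h4 : ∑ z ∈ v', 2 * (N : ℝ) ^ 2 * ((1 - (G (gt z)).re) * (1 / n)) =
              ∑ w ∈ v'.image gt, 2 * (N : ℝ) ^ 2 * ((1 - (G w).re) * (1 / n)) := by
            rw [sum_image fun x _ y _ h => gt_inj h]
          rw [h4]
          refine sum_le_sum_of_subset_of_nonneg ?_ fun w _ _ => ?_
          · intro w hw
            obtain ⟨z, hz, rfl⟩ := mem_image.1 hw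
            exact (mem_TT hn1).2 ((nm_gt z).trans (hvp z hz).2)
          · have := hGre w
            positivity
        rw [← mul_sum, ← sum_mul, ← deficit hnp] at h2
        have h5 := hb2 n
        have h6 := hb3 n
        rw [hb]
        linarith
    · -- the inert primes
      obtain ⟨p, hp, -, hpn⟩ := prime_over (hvp z₀ hz₀).1
      rw [(hvp z₀ hz₀).2] at hpn
      have hpn2 : n = p ^ 2 := by
        rcases hpn with h | h
        · exact absurd (h ▸ hp) hnp
        · exact h
      have hcard : v'.card ≤ 9 := by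
        refine card_inert hp v' fun z hz => ?_
        obtain ⟨g1, g2⟩ := hvp z hz
        refine ⟨?_, g2.trans hpn2⟩
        obtain ⟨q, hq, hzq, hqn⟩ := prime_over g1
        rw [g2] at hqn
        have hq2 : n = q ^ 2 := by
          rcases hqn with h | h
          · exact absurd (h ▸ hq) hnp
          · exact h
        have : q = p := by
          have h7 : q ^ 2 = p ^ 2 := hq2.symm.trans hpn2
          exact Nat.pow_left_injective (by norm_num) h7
        rw [← this]
        exact hzq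
      have hcard' : (v'.card : ℝ) ≤ 9 := by exact_mod_cast hcard
      have h3 : (v'.card : ℝ) * (1 / (n : ℝ)) ≤ 9 * (1 / n) :=
        mul_le_mul_of_nonneg_right hcard' (by positivity)
      have h4 : b n = 2 * (N : ℝ) ^ 2 * (uc 0 1 * gg (rr 0 1) (aL G) 0 0 n) +
          (if n ∣ M then ((TT n).card : ℝ) else 0) + 9 * (1 / (n : ℝ)) := by
        rw [hb]
        simp only
        rw [if_pos (show IsSquare n from ⟨p, by rw [hpn2]; ring⟩)]
      rw [h4]
      have h5 := hb1 n
      have h6 := hb2 n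
      linarith
  -- the sum
  refine summable_of_sum_le hf0 (c := ∑' n, b n) fun u => ?_
  rw [← sum_fiberwise_of_maps_to (g := fun z : GaussianInt => z.norm.natAbs)
    (t := u.image fun z : GaussianInt => z.norm.natAbs) (fun z hz => mem_image_of_mem _ hz) f]
  refine (sum_le_sum fun n _ => hfib n _ fun z hz => (mem_filter.1 hz).2).trans ?_
  exact hbs.sum_le_tsum _ (fun n _ => hb0 n)

end Pool.Agent.N644.EL
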